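import Pool.Agent.H40.Js9

set_option autoImplicit false

namespace Pool.Agent.Results.MP_e864e9_lc.Model

open Pool.Agent.H40.Bspt Pool.Agent.H40.Jz Pool.Agent.H40.Js Set Filter

abbrev G : Type := ℕ → Equiv.Perm ℝ

instance : NF G where
  F := ⨅ n, ⨅ (_ : True), 𝓟 {g | g n = 1}
  conj h := tendsto_iInf.2 fun i => tendsto_iInf.2 fun _ => tendsto_principal.2
    (mem_iInf_of_mem i (mem_iInf_of_mem trivial fun g (hg : g i = 1) => by simp [hg]))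
  inv := tendsto_iInf.2 fun i => tendsto_iInf.2 fun _ => tendsto_principal.2
    (mem_iInf_of_mem i (mem_iInf_of_mem trivial fun g (hg : g i = 1) => by simp [hg]))

theorem ev {p : G → Prop} : (∀ᶠ g in NF.F, p g) ↔ ∃ N, ∀ g : G, (∀ n < N, g n = 1) → p g := by
  refine mem_biInf_principal.trans ⟨fun ⟨F, h1, _, h2⟩ => ?_, fun ⟨N, h⟩ =>
    ⟨_, finite_lt_nat N, fun _ _ => trivial, fun g hg => h g fun n hn => mem_iInter₂.1 hg n hn⟩⟩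
  obtain ⟨N, hN⟩ := h1.bddAbove
  exact ⟨N + 1, fun g hg => h2 (mem_iInter₂.2 fun n hn => hg n (Nat.lt_succ_of_le (hN hn)))⟩

def D : Type := {x : ℕ → Set ℝ // (∀ n, (x n).Infinite) ∧ ∃ N, ∀ n, N ≤ n → x n = univ}

instance : MulAction G D where
  smul g x := ⟨fun n => (g n).symm ⁻¹' x.1 n, fun n => (x.2.1 n).preimage (by simp),
    x.2.2.imp fun _ h n hn => congrArg (preimage (g n).symm) (h n hn)⟩
  one_smul _ := rfl
  mul_smul _ _ _ := rfl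

theorem mem_sm {g : G} {x : D} {n : ℕ} {r : ℝ} : r ∈ (g • x).1 n ↔ (g n).symm r ∈ x.1 n := Iff.rfl

theorem fx (x : D) : ∀ᶠ g in NF.F (Γ := G), g • x = x := by
  obtain ⟨N, hN⟩ := x.2.2
  refine ev.2 ⟨N, fun g hg => Subtype.ext (funext fun n => Set.ext fun r => ?_)⟩
  rw [mem_sm]
  rcases lt_or_ge n N with h | h
  · rw [hg n h]; rfl
  · simp [hN n h]

def top : D := ⟨fun _ => univ, fun _ => infinite_univ, 0, fun _ _ => rfl⟩

def Sm (B : ℕ → Set ℝ) : Prop := (∀ n, (B n).Countable) ∧ ∃ N, ∀ n, N ≤ n → B n = ∅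

def nb (B : ℕ → Set ℝ) : Set D := {x | ∀ n, B n ⊆ x.1 n}

instance : TopologicalSpace D where
  IsOpen U := top ∈ U → ∃ B, Sm B ∧ nb B ⊆ U
  isOpen_univ _ := ⟨fun _ => ∅, ⟨fun _ => countable_empty, 0, fun _ _ => rfl⟩, subset_univ _⟩
  isOpen_inter U V a b h := by
    obtain ⟨B, ⟨h1, N, h2⟩, h3⟩ := a h.1
    obtain ⟨C, ⟨h4, K, h5⟩, h6⟩ := b h.2
    exact ⟨fun n => B n ∪ C n, ⟨fun n => (h1 n).union (h4 n), max N K, fun n hn => by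
      simp [h2 n (le_of_max_le_left hn), h5 n (le_of_max_le_right hn)]⟩, fun x hx =>
      ⟨h3 fun n => subset_union_left.trans (hx n), h6 fun n => subset_union_right.trans (hx n)⟩⟩
  isOpen_sUnion C h := fun ⟨U, a, b⟩ => (h U a b).imp fun _ e => ⟨e.1, e.2.trans (subset_sUnion_of_mem a)⟩

theorem op {U : Set D} : IsOpen U ↔ (top ∈ U → ∃ B, Sm B ∧ nb B ⊆ U) := Iff.rfl

instance : ContinuousConstSMul G D := ⟨fun g => ⟨fun U hU => op.2 fun h => by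
  obtain ⟨B, ⟨h1, N, h2⟩, h3⟩ := op.1 hU h
  exact ⟨fun n => (g n).symm '' B n, ⟨fun n => (h1 n).image _, N, fun n hn => by simp [h2 n hn]⟩,
    fun x hx => h3 fun n r hr => hx n ⟨r, hr, rfl⟩⟩⟩⟩

def nbS (B : ℕ → Set ℝ) (h : Sm B) : PS G D := ⟨nb B, sym_of (by
  obtain ⟨N, hN⟩ := h.2
  refine ev.2 ⟨N, fun g hg x hx n r hr => ?_⟩
  rcases lt_or_ge n N with a | a
  · rw [mem_sm, hg n a]; exact hx n hr
  · simp [hN n a] at hr)⟩

theorem perm {b s : Set ℝ} (hb : b.Countable) (hs : s.Infinite) :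
    ∃ π : Equiv.Perm ℝ, ∀ r ∈ b, π r ∈ s := by
  obtain ⟨f, hf⟩ := Set.countable_iff_exists_injective.1 hb
  obtain ⟨π, h⟩ := Cardinal.extend_function_of_lt (α := ℝ) (β := ℝ) (s := b)
    ⟨fun r => hs.natEmbedding s (f r), Subtype.val_injective.comp
      ((hs.natEmbedding s).injective.comp hf)⟩ (hb.le_aleph0.trans_lt (by
      rw [Cardinal.mk_real]; exact Cardinal.aleph0_lt_continuum)) ⟨Equiv.refl _⟩
  exact ⟨π, fun r hr => h ⟨r, hr⟩ ▸ (hs.natEmbedding s _).2⟩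

theorem pspace (J : JS G D) : PSpace J.E (J.sA unA) J.T := by
  intro C h1 h2 _ x hx h3
  obtain ⟨x, rfl⟩ := J.isA hx
  obtain ⟨c, hc, rfl⟩ := J.subS h1
  by_cases h : x = top
  swap
  · exact ⟨J.sA ⟨{x}, sym_of ((fx x).mono fun g e y hy => by rw [hy]; exact e)⟩,
      J.memT.2 (op.2 fun e => absurd e.symm h), J.memA.2 rfl, J.allA.2 fun y hy => hy ▸ h3⟩
  subst h
  obtain ⟨h4, h5⟩ := J.ctbl_el (t := .w .a) h2
  obtain ⟨N, hN⟩ := ev.1 h5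
  choose! B hB hB' using fun U (hU : U ∈ c.1) => op.1 (hc hU) (J.memA.1 (J.allS.1 h3 U hU))
  have hs : Sm fun n => {r | n < N ∧ r ∈ ⋃ U ∈ c.1, B U n} :=
    ⟨fun n => (h4.biUnion fun U hU => (hB U hU).1 n).mono fun r hr => hr.2, N, fun n hn =>
      eq_empty_of_forall_notMem fun r hr => hr.1.not_ge hn⟩
  refine ⟨J.sA (nbS _ hs), J.memT.2 (op.2 fun _ => ⟨_, hs, subset_rfl⟩),
    J.memA.2 fun _ _ _ => trivial, J.allA.2 fun y hy => J.allS.2 fun U hU => J.memA.2 ?_⟩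
  choose π hπ using fun n => perm ((hB U hU).1 n) (y.2.1 n)
  let g : G := fun n => if n < N then 1 else π n
  rw [← hN g (fun n hn => if_pos hn) U hU]
  refine hB' U hU fun n r hr => ?_
  show g n r ∈ y.1 n
  by_cases a : n < N
  · rw [show g n = 1 from if_pos a]
    exact hy n ⟨a, mem_biUnion hU hr⟩
  · rw [show g n = π n from if_neg a]
    exact hπ n r hr

def tp : PS G (PS G (D × D)) := ⟨{W | ∀ z ∈ W.1, ∃ U V : PS G D, IsOpen U.1 ∧ IsOpen V.1 ∧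
    z.1 ∈ U.1 ∧ z.2 ∈ V.1 ∧ ∀ x ∈ U.1, ∀ y ∈ V.1, (x, y) ∈ W.1}, sym_all fun g W h z hz => by
  obtain ⟨U, V, a, b, c, d, e⟩ := h _ hz
  exact ⟨g • U, g • V, a.preimage (continuous_const_smul g⁻¹),
    b.preimage (continuous_const_smul g⁻¹), c, d, fun x hx y hy => e _ hx _ hy⟩⟩

def cut (N : ℕ) (s : Set ℝ) (h : s.Infinite) : D := ⟨fun n => if n = N then s else univ,
  fun n => by dsimp only; split_ifs; exacts [h, infinite_univ], N + 1, fun n hn => if_neg (by omega)⟩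

theorem result : ∃ (M : Type) (E : M → M → Prop), IsZF E ∧ ∃ X S Y R P T,
    IsTop E X S ∧ IsTop E Y R ∧ PSpace E X S ∧ PSpace E Y R ∧ IsProd E X S Y R P T ∧
      ¬ PSpace E P T := by
  obtain ⟨J⟩ := ex_js fx
  refine ⟨J.M, J.E, J.zf, _, _, _, _, J.ν (.w (.p .a .a)) (un _), J.ν (.w (.w (.p .a .a))) tp,
    J.isTop, J.isTop, pspace J, pspace J, ⟨fun p => ⟨fun h => ?_, ?_⟩, fun W => ⟨fun h => ?_, ?_⟩⟩,
    fun h => ?_⟩
  · obtain ⟨x, -, rfl⟩ := (J.mem _ _ _).1 h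
    exact ⟨_, _, J.memA.2 trivial, J.memA.2 trivial, J.pair .a .a x.1 x.2⟩
  · rintro ⟨x, y, a, b, c⟩
    obtain ⟨x, rfl⟩ := J.isA a
    obtain ⟨y, rfl⟩ := J.isA b
    exact J.isPair_iff.1 c ▸ J.mem'.2 trivial
  · obtain ⟨w, hw, rfl⟩ := (J.mem _ _ _).1 h
    refine ⟨J.sub_iff.2 (subset_univ _), fun x y e => ?_⟩
    obtain ⟨x, y, e', rfl, rfl⟩ := J.app_iff.1 e
    obtain ⟨U, V, a, b, c, d, f⟩ := hw _ e'
    refine ⟨_, _, J.memT.2 a, J.memT.2 b, J.memA.2 c, J.memA.2 d, fun x' y' k l => ?_⟩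
    obtain ⟨x', k, rfl⟩ := J.elA k
    obtain ⟨y', l, rfl⟩ := J.elA l
    exact J.app_iff.2 ⟨x', y', f _ (J.memA.1 ‹_›) _ (J.memA.1 ‹_›), rfl, rfl⟩
  · rintro ⟨h1, h2⟩
    obtain ⟨w, -, rfl⟩ := J.sub' h1
    refine J.mem'.2 fun z hz => ?_
    obtain ⟨U, V, a, b, c, d, f⟩ := h2 _ _ (J.app_iff.2 ⟨z.1, z.2, hz, rfl, rfl⟩)
    obtain ⟨U, a', rfl⟩ := J.elT a
    obtain ⟨V, b', rfl⟩ := J.elT b
    exact ⟨U, V, a', b', J.memA.1 c, J.memA.1 d, fun x hx y hy =>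
      J.mem'.1 (J.app_nu.1 (f _ _ (J.memA.2 hx) (J.memA.2 hy)))⟩
  let σ : ℕ → PS G (D × D) := fun n => ⟨{z | ∃ r, r ∈ z.1.1 n ∧ r ∈ z.2.1 n},
    sym_all fun g z ⟨r, a, b⟩ => ⟨g n r, mem_sm.2 (by simpa), mem_sm.2 (by simpa)⟩⟩
  obtain ⟨c, h1, h2⟩ := J.ctbl_seq (t := .w (.p .a .a)) (σ := σ) (Eventually.of_forall fun g n =>
    Subtype.ext (Set.ext fun z => ⟨fun ⟨r, a, b⟩ => ⟨_, a, b⟩, fun ⟨r, a, b⟩ =>
      ⟨(g n).symm r, mem_sm.2 (by simpa [Equiv.Perm.inv_def]),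
        mem_sm.2 (by simpa [Equiv.Perm.inv_def])⟩⟩))
  obtain ⟨W, h3, h4, h5⟩ := h _ (J.sub_iff.2 (h1.le.trans (range_subset_iff.2 fun n z ⟨r, a, b⟩ => by
      have hs : Sm fun m => {s | m = n ∧ s = r} := ⟨fun m => (countable_singleton r).mono
        fun s h => h.2, n + 1, fun m hm => eq_empty_of_forall_notMem fun s h => by
          have := h.1; omega⟩
      exact ⟨nbS _ hs, nbS _ hs, op.2 fun _ => ⟨_, hs, subset_rfl⟩, op.2 fun _ => ⟨_, hs, subset_rfl⟩,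
        fun m s h => h.1 ▸ h.2 ▸ a, fun m s h => h.1 ▸ h.2 ▸ b,
        fun x hx y hy => ⟨r, hx n ⟨rfl, rfl⟩, hy n ⟨rfl, rfl⟩⟩⟩))) h2
    ⟨_, J.mem'.2 (h1.ge ⟨0, rfl⟩)⟩ (J.ν (.p .a .a) (top, top)) (J.mem'.2 trivial)
    (J.all_mem.2 fun U hU => by
      obtain ⟨n, rfl⟩ := h1.le hU
      exact J.mem'.2 ⟨0, trivial, trivial⟩)
  obtain ⟨w, hw, rfl⟩ := (J.mem _ _ _).1 h3
  obtain ⟨U, V, a, b, c1, d, f⟩ := hw _ (J.mem'.1 h4)
  obtain ⟨B, ⟨-, N, k1⟩, k2⟩ := op.1 a c1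
  obtain ⟨C, ⟨-, K, k3⟩, k4⟩ := op.1 b d
  have key : ∀ (B : ℕ → Set ℝ) s hs, B (max N K) = ∅ → cut (max N K) s hs ∈ nb B := fun B s hs e n => by
    simp only [cut]
    split_ifs with a
    · simp [a, e]
    · exact subset_univ _
  obtain ⟨r, r1, r2⟩ := J.mem'.1 (h5 _ (J.mem'.2 (f _ (k2 (key B _ (Ioi_infinite (0 : ℝ))
    (k1 _ (le_max_left _ _)))) _ (k4 (key C _ (Iio_infinite (0 : ℝ)) (k3 _ (le_max_right _ _)))))) _
    (J.mem'.2 (h1.ge ⟨max N K, rfl⟩)))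
  simp only [cut, if_true] at r1 r2
  exact lt_asymm (mem_Ioi.1 r1) (mem_Iio.1 r2)

end Pool.Agent.Results.MP_e864e9_lc.Model
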